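import Pool.Agent.Hhelper95.RWDP.Main
import Pool.Agent.Hhelper95.RWDP.Exist2

/-!
# Return probabilities of random walk on dynamical percolation

Annealed return probabilities of random walk on dynamical percolation on a connected, locally
finite, vertex-transitive graph are comparable, from both sides and up to constants, with those of
simple random walk. The definitions are in `Pool/Agent/Hhelper95/RWDP/Defs.lean`.

Amenable case: on finite sets with small boundary, the traces of the finite volume semigroups of
the environment-walk pair and of simple random walk are compared by a Berezin type inequality and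
the tensorised Poincare inequality for the environment. Nonamenable case: both return
probabilities decay exponentially (Cheeger inequality) and not faster than exponentially.
-/

open MeasureTheory

namespace Pool.Agent.Results.MP_2a8190_pr.ReturnComparison

open Pool.Agent.Hhelper95.RWDP

/-- For every connected, locally finite, vertex-transitive graph `G`, every `μ > 0` and every
`p ∈ (0, 1]`, random walk on dynamical percolation and simple random walk exist, and their
(annealed) return probabilities satisfy a two-sided comparison with a constant `C`. -/
theorem result {V : Type*} [MeasurableSpace V] [DiscreteMeasurableSpace V] (G : SimpleGraph V)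
    [G.LocallyFinite] (hconn : G.Connected) (htrans : ∀ x y : V, ∃ φ : G ≃g G, φ x = y)
    (o : V) (μ p : ℝ) (hμ : 0 < μ) (hp : 0 < p) (hp1 : p ≤ 1) :
    (∃ ρ : ℝ → Measure (V × Env G), IsRWDP G μ p o ρ) ∧
    (∃ σ : ℝ → Measure V, IsSRW G o σ) ∧
    ∃ C : ℝ, 1 ≤ C ∧ ∀ (ρ : ℝ → Measure (V × Env G)) (σ : ℝ → Measure V),
      IsRWDP G μ p o ρ → IsSRW G o σ → ∀ t : ℝ, 0 ≤ t →
        (1 / C) * (σ (C * t)).real {o} ≤ (ρ t).real {z | z.1 = o} ∧
        (ρ t).real {z | z.1 = o} ≤ C * (σ (t / C)).real {o} := by
  have hD : ∀ x, G.degree x ≤ G.degree o := by
    intro x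
    obtain ⟨φ, rfl⟩ := htrans o x
    rw [degree_iso]
  exact ⟨⟨_, exists_rwdp hconn hμ.le hp.le hp1 hD⟩, ⟨_, exists_srw hconn hD⟩,
    comparison_main (fun x => htrans o x) hμ hp hp1⟩

end Pool.Agent.Results.MP_2a8190_pr.ReturnComparison
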